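import Pool.Agent.L7h42.Theta.Defs
import Pool.Agent.L7h42.Theta.Tables

/-!
# The check of the decision tree
-/

set_option autoImplicit false

namespace Pool.Agent.L7h42.Theta

/-- one step of the filter: remove `q` if one of its parts is missing -/
def fstep (a : ℕ) (fb : ℕ × ℕ) : ℕ :=
  bif Nat.beq (Nat.land a fb.2) 0 then a else
    bif Nat.beq (Nat.land a fb.1) fb.1 then a else Nat.xor a fb.2

def filt (l : List (ℕ × ℕ)) (a : ℕ) : ℕ := l.foldl fstep a

/-- the weight of a path given by three times its edge numbers -/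
def wsum (c : ℕ) (es : List ℕ) : ℕ :=
  es.foldr (fun e s => Nat.add (Nat.land (Nat.shiftRight c e) 7) s) 0

def minW (c : ℕ) (b : List (ℕ × List ℕ)) : ℕ :=
  b.foldr (fun x s => let y := wsum c x.2; bif Nat.ble y s then y else s) 1000

def blockOk (c a : ℕ) (b : List (ℕ × List ℕ)) : Bool :=
  b.all fun x => bif Nat.beq (Nat.land (Nat.shiftRight a x.1) 1) 0 then true
    else Nat.ble (wsum c x.2) (minW c b)

def posOk (c : ℕ) : Bool :=
  [0, 3, 6, 9, 12, 15, 18, 21, 24].all fun e => Nat.ble 1 (Nat.land (Nat.shiftRight c e) 7)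

def leafOk (c a : ℕ) : Bool := posOk c && blocks.all (blockOk c a)

def deadOk (a : ℕ) : Bool := Pm.any fun p => Nat.beq (Nat.land p a) 0

def run (fl : List (ℕ × ℕ)) : List ℕ → List ℕ → Bool
  | [], [] => true
  | [], _ :: _ => false
  | _ :: _, [] => false
  | t :: ts, a :: st =>
    bif Nat.blt t 96 then
      run fl ts (Nat.land a (Cm.getD t 0) :: fstep2 a t :: st)
    else bif Nat.beq t 96 then deadOk (filt fl a) && run fl ts st
    else leafOk (Nat.sub t 97) (filt fl a) && run fl ts st
where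
  fstep2 (a t : ℕ) : ℕ := bif Nat.beq (Nat.land a (Nat.pow 2 t)) 0 then a else Nat.xor a (Nat.pow 2 t)

def full : ℕ := 2 ^ 96 - 1

def fl : List (ℕ × ℕ) := Fm.zipIdx.map fun x => (x.1, Nat.pow 2 x.2)

set_option maxRecDepth 100000 in
theorem run_ok : run fl toks [full] = true := by decide +kernel

end Pool.Agent.L7h42.Theta
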