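import Mathlib

/-!
# Metrizable graphs

Path systems, consistent path systems, metrizability, and the theta graph with three paths of
length three.
-/

set_option autoImplicit false

namespace Pool.Agent.L7h42.Theta

/-- A path system in the graph `G`: for all vertices `u` and `v` a simple path `path u v` from `u`
to `v`; the path chosen from `v` to `u` is the same one, read backwards. -/
structure PathSystem {V : Type} (G : SimpleGraph V) where
  /-- the chosen path from `u` to `v` -/
  path : ∀ u v : V, G.Walk u v
  isPath : ∀ u v, (path u v).IsPath
  symm : ∀ u v, path v u = (path u v).reverse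

/-- The path system `P` is consistent: whenever the vertices `x` and `y` lie on a path of `P`, the
part of this path between `x` and `y` is the path of `P` from `x` to `y`. -/
def Consistent {V : Type} {G : SimpleGraph V} (P : PathSystem G) : Prop :=
  ∀ (u v x y : V) (a : G.Walk u x) (b : G.Walk x y) (c : G.Walk y v),
    P.path u v = a.append (b.append c) → P.path x y = b

/-- The total weight of the edges of a walk. -/
noncomputable def weight {V : Type} {G : SimpleGraph V} (w : Sym2 V → ℝ) {u v : V}
    (p : G.Walk u v) : ℝ := (p.edges.map w).sum

/-- The edge weights `w` induce the path system `P`: every path of `P` has the smallest weight among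
all paths with the same ends. -/
def Induces {V : Type} {G : SimpleGraph V} (w : Sym2 V → ℝ) (P : PathSystem G) : Prop :=
  ∀ (u v : V) (q : G.Walk u v), q.IsPath → weight w (P.path u v) ≤ weight w q

/-- `G` is metrizable: every consistent path system in `G` is induced by positive edge weights. -/
def Metrizable {V : Type} (G : SimpleGraph V) : Prop :=
  ∀ P : PathSystem G, Consistent P →
    ∃ w : Sym2 V → ℝ, (∀ e ∈ G.edgeSet, 0 < w e) ∧ Induces w P

/-- The theta graph `Θ_{3,3,3}`: the vertices are `0, ..., 7`, and the edges are those of the three
paths `0 2 3 1`, `0 4 5 1` and `0 6 7 1`, which share only their ends `0` and `1`. -/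
def theta333 : SimpleGraph (Fin 8) := SimpleGraph.fromEdgeSet
  {s(0, 2), s(2, 3), s(3, 1), s(0, 4), s(4, 5), s(5, 1), s(0, 6), s(6, 7), s(7, 1)}

end Pool.Agent.L7h42.Theta
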