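import Pool.Agent.L7h42.Theta.Sound

/-!
# The theta graph with three paths of length three is metrizable
-/

set_option autoImplicit false

namespace Pool.Agent.L7h42.Theta

open SimpleGraph

/-! ### Masks -/

/-- the mask `a` contains the chosen paths -/
def Inv (P : PathSystem theta333) (a : ℕ) : Prop := ∀ i < 96, Chosen P i → a.testBit i = true

theorem inv_full (P : PathSystem theta333) : Inv P full := by
  intro i hi _
  rw [full, Nat.testBit_two_pow_sub_one]
  simpa using hi

theorem land_two_pow {a q : ℕ} (h : a.testBit q = true) : Nat.land a (2 ^ q) ≠ 0 := by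
  intro h0
  have : (a &&& 2 ^ q).testBit q = true := by
    rw [Nat.testBit_and, h, Nat.testBit_two_pow_self]; rfl
  rw [show a &&& 2 ^ q = 0 from h0] at this
  simp at this

theorem fl_eq : fl = (List.range 96).map fun q => (fm q, 2 ^ q) := by decide +kernel

theorem inv_fstep {P : PathSystem theta333} (hP : Consistent P) {a q : ℕ} (hq : q < 96)
    (h : Inv P a) : Inv P (fstep a (fm q, 2 ^ q)) := by
  intro i hi hc
  unfold fstep
  simp only
  by_cases h0 : Nat.beq (Nat.land a (2 ^ q)) 0 = true
  · rw [h0]; exact h i hi hc
  · rw [Bool.not_eq_true] at h0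
    rw [h0, cond_false]
    by_cases h1 : Nat.beq (Nat.land a (fm q)) (fm q) = true
    · rw [h1]; exact h i hi hc
    · have hne : i ≠ q := by
        rintro rfl
        apply h1
        have : Nat.land a (fm i) = fm i := by
          apply Nat.eq_of_testBit_eq
          intro j
          change (a &&& fm i).testBit j = _
          rw [Nat.testBit_and]
          by_cases hj : (fm i).testBit j = true
          · have hcj := chosen_part hP hi hc hj
            have hj96 : j < 96 := by
              by_contra hcon
              have h1 := fm_lt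
              rw [List.all_eq_true] at h1
              have h2 := Nat.le_of_ble_eq_true (h1 i (by simpa using hi))
              have h3 : fm i < 2 ^ j := by
                have h4 : full < 2 ^ 96 := by decide
                have h5 : 2 ^ 96 ≤ 2 ^ j := Nat.pow_le_pow_right (by norm_num) (by omega)
                omega
              rw [Nat.testBit_lt_two_pow h3] at hj
              exact absurd hj (by decide)
            rw [h j hj96 hcj, hj]; rfl
          · rw [Bool.not_eq_true] at hj
            rw [hj, Bool.and_false]
        rw [this]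
        exact Nat.beq_refl _
      rw [Bool.not_eq_true] at h1
      rw [h1, cond_false]
      change (a ^^^ 2 ^ q).testBit i = true
      rw [Nat.testBit_xor, h i hi hc, Nat.testBit_two_pow_of_ne hne.symm]
      rfl

theorem inv_filt {P : PathSystem theta333} (hP : Consistent P) {a : ℕ} (h : Inv P a) :
    Inv P (filt fl a) := by
  rw [fl_eq]
  unfold filt
  have : ∀ (l : List ℕ) (b : ℕ), (∀ q ∈ l, q < 96) → Inv P b →
      Inv P ((l.map fun q => (fm q, 2 ^ q)).foldl fstep b) := by
    intro l
    induction l with
    | nil => intro b _ hb; exact hb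
    | cons q l ih =>
      intro b hl hb
      rw [List.map_cons, List.foldl_cons]
      exact ih _ (fun q' hq' => hl q' (List.mem_cons_of_mem _ hq'))
        (inv_fstep hP (hl q List.mem_cons_self) hb)
  exact this _ _ (fun q hq => by simpa using hq) h

/-! ### The weights -/

def eidx (a b : ℕ) : ℕ :=
  ([[99, 99, 0, 99, 9, 99, 18, 99],
    [99, 99, 99, 6, 99, 15, 99, 24],
    [0, 99, 99, 3, 99, 99, 99, 99],
    [99, 6, 3, 99, 99, 99, 99, 99],
    [9, 99, 99, 99, 99, 12, 99, 99],
    [99, 15, 99, 99, 12, 99, 99, 99],
    [18, 99, 99, 99, 99, 99, 99, 21],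
    [99, 24, 99, 99, 99, 99, 21, 99]].getD a []).getD b 99

theorem eidx_symm : ∀ a b : Fin 8, eidx a b = eidx b a := by decide

def wt (c : ℕ) : Sym2 (Fin 8) → ℝ :=
  Sym2.lift ⟨fun a b => ((Nat.land (Nat.shiftRight c (eidx a b)) 7 : ℕ) : ℝ), fun a b => by
    simp only [eidx_symm a b]⟩

theorem wt_mk (c : ℕ) (a b : Fin 8) :
    wt c s(a, b) = ((Nat.land (Nat.shiftRight c (eidx a b)) 7 : ℕ) : ℝ) := rfl

theorem wt_pos {c : ℕ} (hc : posOk c = true) : ∀ e ∈ theta333.edgeSet, 0 < wt c e := by
  intro e
  induction e using Sym2.ind with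
  | _ a b =>
  intro h
  have h1 : ∀ a b : Fin 8, s(a, b) ∈ ({s(0, 2), s(2, 3), s(3, 1), s(0, 4), s(4, 5), s(5, 1),
      s(0, 6), s(6, 7), s(7, 1)} : Finset (Sym2 (Fin 8))) →
      eidx a b ∈ [0, 3, 6, 9, 12, 15, 18, 21, 24] := by decide
  have h2 : eidx a b ∈ [0, 3, 6, 9, 12, 15, 18, 21, 24] := by
    apply h1
    rw [SimpleGraph.mem_edgeSet] at h
    unfold theta333 at h
    rw [SimpleGraph.fromEdgeSet_adj] at h
    have := h.1
    simpa using this
  unfold posOk at hc
  rw [List.all_eq_true] at hc
  have h3 := Nat.le_of_ble_eq_true (hc _ h2)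
  rw [wt_mk]
  exact_mod_cast h3

/-- the numbers of the edges of a path -/
def eids : List ℕ → List ℕ
  | a :: b :: l => eidx a b :: eids (b :: l)
  | _ => []

theorem weight_eq (c : ℕ) : ∀ {u v : Fin 8} (p : theta333.Walk u v),
    weight (wt c) p = ((wsum c (eids (sup p)) : ℕ) : ℝ)
  | _, _, .nil => by simp [weight, sup, eids, wsum]
  | u, _, .cons (v := x) h p => by
    have ih := weight_eq c p
    have h1 : weight (wt c) (Walk.cons h p) = wt c s(u, x) + weight (wt c) p := by
      simp [weight]
    rw [h1, ih, wt_mk]
    have h2 : ∃ t, p.support = x :: t := by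
      cases p with
      | nil => exact ⟨[], rfl⟩
      | cons h' p' => exact ⟨_, rfl⟩
    obtain ⟨t, ht⟩ := h2
    unfold sup
    rw [Walk.support_cons, ht]
    simp only [List.map_cons, eids, wsum, List.foldr_cons]
    push_cast [Nat.add_eq]
    rfl

/-! ### Blocks -/

theorem tab3 : blocks.all (fun b => b.all fun x => Nat.blt x.1 96 && (eids (cd x.1) == x.2))
    = true := by decide +kernel

theorem tab4 : (List.range 96).all (fun q => (List.range 96).all fun r =>
    !((cd q).head? == (cd r).head? && (cd q).getLast? == (cd r).getLast?) ||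
      blocks.any fun b => (b.any fun x => x.1 == q) && (b.any fun x => x.1 == r)) = true := by
  decide +kernel

theorem tab5 : (List.range 8).all (fun u => (List.range 8).all fun v => !(Nat.blt u v) ||
    Pm.length == 28 && true) = true := by decide +kernel

theorem tab6 : Pm.all (fun p => (List.range 96).any fun r => (List.range 96).all fun q =>
    !((cd q).head? == (cd r).head? && (cd q).getLast? == (cd r).getLast?) || p.testBit q) = true := by
  decide +kernel

theorem tab7 : (List.range 96).all (fun r => Nat.blt ((cd r).head?.getD 9) ((cd r).getLast?.getD 0)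
    && Nat.blt ((cd r).getLast?.getD 0) 8 && (cd r).head?.isSome && (cd r).getLast?.isSome)
      = true := by
  decide +kernel

/-- For every path of the table there is a chosen one with the same ends. -/
theorem exists_chosen (P : PathSystem theta333) {r : ℕ} (hr : r < 96) :
    ∃ q < 96, Chosen P q ∧ (cd q).head? = (cd r).head? ∧ (cd q).getLast? = (cd r).getLast? := by
  have h1 := tab7
  rw [List.all_eq_true] at h1
  have h2 := h1 r (by simpa using hr)
  simp only [Bool.and_eq_true, Nat.blt_eq] at h2
  obtain ⟨⟨⟨h3, h4⟩, h5⟩, h6⟩ := h2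
  rw [Option.isSome_iff_exists] at h5 h6
  obtain ⟨u, hu⟩ := h5
  obtain ⟨v, hv⟩ := h6
  rw [hu, hv] at h3
  rw [hv] at h4
  simp only [Option.getD_some] at h3 h4
  obtain ⟨q, hq, hq2⟩ := exists_cd (u := ⟨u, by omega⟩) (v := ⟨v, h4⟩) (by simpa using h3)
    (P.path ⟨u, by omega⟩ ⟨v, h4⟩) (P.isPath _ _)
  refine ⟨q, hq, ⟨_, _, hq2.symm⟩, ?_, ?_⟩
  · rw [hq2, sup_head, hu]
  · rw [hq2, sup_last, hv]

theorem dead_false {P : PathSystem theta333} {a : ℕ} (h : Inv P a) (hd : deadOk a = true) :
    False := by
  unfold deadOk at hd
  rw [List.any_eq_true] at hd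
  obtain ⟨p, hp, hp2⟩ := hd
  have h1 := tab6
  rw [List.all_eq_true] at h1
  have h2 := h1 p hp
  rw [List.any_eq_true] at h2
  obtain ⟨r, hr, hr2⟩ := h2
  rw [List.all_eq_true] at hr2
  obtain ⟨q, hq, hc, e1, e2⟩ := exists_chosen P (r := r) (by simpa using hr)
  have h3 := hr2 q (by simpa using hq)
  rw [e1, e2] at h3
  simp only [BEq.rfl, Bool.and_self, Bool.not_true, Bool.false_or] at h3
  have h4 := h q hq hc
  have h5 := Nat.eq_of_beq_eq_true hp2
  have h6 : (p &&& a).testBit q = true := by rw [Nat.testBit_and, h3, h4]; rfl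
  rw [show p &&& a = 0 from h5] at h6
  simp at h6

theorem minW_le (c : ℕ) : ∀ (b : List (ℕ × List ℕ)) (x : ℕ × List ℕ), x ∈ b →
    minW c b ≤ wsum c x.2
  | [], x, h => by simp at h
  | y :: b, x, h => by
    have h0 : minW c (y :: b) = bif Nat.ble (wsum c y.2) (minW c b) then wsum c y.2
        else minW c b := rfl
    rw [h0]
    by_cases hy : Nat.ble (wsum c y.2) (minW c b) = true
    · rw [hy, cond_true]
      have h1 := Nat.le_of_ble_eq_true hy
      rcases List.mem_cons.1 h with rfl | h
      · exact le_rfl
      · exact h1.trans (minW_le c b x h)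
    · have h1 : minW c b < wsum c y.2 := by
        by_contra hcon
        exact hy (Nat.ble_eq_true_of_le (by omega))
      rw [Bool.not_eq_true] at hy
      rw [hy, cond_false]
      rcases List.mem_cons.1 h with rfl | h
      · exact h1.le
      · exact minW_le c b x h

theorem leaf_good {P : PathSystem theta333} {a c : ℕ} (h : Inv P a) (hl : leafOk c a = true) :
    ∃ w : Sym2 (Fin 8) → ℝ, (∀ e ∈ theta333.edgeSet, 0 < w e) ∧ Induces w P := by
  unfold leafOk at hl
  rw [Bool.and_eq_true] at hl
  refine ⟨wt c, wt_pos hl.1, ?_⟩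
  have hb := hl.2
  rw [List.all_eq_true] at hb
  have main : ∀ (u v : Fin 8), u < v → ∀ q : theta333.Walk u v, q.IsPath →
      weight (wt c) (P.path u v) ≤ weight (wt c) q := by
    intro u v huv q hq
    obtain ⟨i, hi, hi2⟩ := exists_cd huv (P.path u v) (P.isPath u v)
    obtain ⟨j, hj, hj2⟩ := exists_cd huv q hq
    have hci : Chosen P i := ⟨u, v, hi2.symm⟩
    have h1 := tab4
    rw [List.all_eq_true] at h1
    have h2 := h1 i (by simpa using hi)
    rw [List.all_eq_true] at h2
    have h3 := h2 j (by simpa using hj)
    rw [hi2, hj2, sup_head, sup_head, sup_last, sup_last] at h3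
    simp only [BEq.rfl, Bool.and_self, Bool.not_true, Bool.false_or] at h3
    rw [List.any_eq_true] at h3
    obtain ⟨b, hbm, hb2⟩ := h3
    rw [Bool.and_eq_true, List.any_eq_true, List.any_eq_true] at hb2
    obtain ⟨⟨x, hx, hxi⟩, ⟨y, hy, hyj⟩⟩ := hb2
    rw [beq_iff_eq] at hxi hyj
    have h4 := hb b hbm
    unfold blockOk at h4
    rw [List.all_eq_true] at h4
    have h5 := h4 x hx
    have h6 := tab3
    rw [List.all_eq_true] at h6
    have h7 := h6 b hbm
    rw [List.all_eq_true] at h7
    have h8 := h7 x hx
    have h9 := h7 y hy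
    rw [Bool.and_eq_true, beq_iff_eq] at h8 h9
    have h10 : Nat.beq (Nat.land (Nat.shiftRight a x.1) 1) 0 = false := by
      rw [← Bool.not_eq_true]
      intro hcon
      have h11 := Nat.eq_of_beq_eq_true hcon
      have h12 := h i hi hci
      rw [← hxi] at h12
      rw [Nat.testBit, Nat.and_comm] at h12
      rw [show (a >>> x.1) &&& 1 = 0 from h11] at h12
      simp at h12
    rw [h10, cond_false] at h5
    have h13 := Nat.le_of_ble_eq_true h5
    have h14 := minW_le c b y hy
    rw [weight_eq, weight_eq, ← hi2, ← hj2, ← hxi, ← hyj, h8.2, h9.2]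
    exact_mod_cast h13.trans h14
  have hrev : ∀ {u v : Fin 8} (p : theta333.Walk u v),
      weight (wt c) p.reverse = weight (wt c) p := by
    intro u v p
    unfold weight
    rw [Walk.edges_reverse, List.map_reverse, List.sum_reverse]
  intro u v q hq
  rcases lt_trichotomy u v with huv | rfl | huv
  · exact main u v huv q hq
  · have h1 : (P.path u u).edges = [] := by
      rw [Walk.edges_eq_nil]
      exact Walk.isPath_iff_nil.1 (P.isPath u u)
    have h2 : q.edges = [] := by
      rw [Walk.edges_eq_nil]
      exact Walk.isPath_iff_nil.1 hq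
    unfold weight
    rw [h1, h2]
  · have := main v u huv q.reverse hq.reverse
    rw [hrev] at this
    rw [P.symm v u, hrev]
    exact this

/-! ### The decision tree -/

theorem run_sound {P : PathSystem theta333} (hP : Consistent P) : ∀ (ts st : List ℕ),
    run fl ts st = true → ∀ a ∈ st, Inv P a →
      ∃ w : Sym2 (Fin 8) → ℝ, (∀ e ∈ theta333.edgeSet, 0 < w e) ∧ Induces w P
  | [], [], _ => by simp
  | [], _ :: _, h => by simp [run] at h
  | _ :: _, [], _ => by simp
  | t :: ts, a :: st, h => by
    intro b hb hinv
    unfold run at h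
    by_cases ht : Nat.blt t 96 = true
    · rw [ht, cond_true] at h
      have ih := run_sound hP ts _ h
      rcases List.mem_cons.1 hb with rfl | hb
      · by_cases hc : Chosen P t
        · apply ih _ List.mem_cons_self
          intro i hi hci
          have h1 := chosen_compat hP (Nat.le_of_ble_eq_true ht) hi hc hci
          change (b &&& cm t).testBit i = true
          rw [Nat.testBit_and, hinv i hi hci, h1]
          rfl
        · apply ih (run.fstep2 b t) (List.mem_cons_of_mem _ List.mem_cons_self)
          intro i hi hci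
          have hne : t ≠ i := by
            rintro rfl; exact hc hci
          unfold run.fstep2
          by_cases h0 : Nat.beq (Nat.land b (Nat.pow 2 t)) 0 = true
          · rw [h0]; exact hinv i hi hci
          · rw [Bool.not_eq_true] at h0
            rw [h0, cond_false]
            change (b ^^^ 2 ^ t).testBit i = true
            rw [Nat.testBit_xor, hinv i hi hci, Nat.testBit_two_pow_of_ne hne]
            rfl
      · exact ih b (List.mem_cons_of_mem _ (List.mem_cons_of_mem _ hb)) hinv
    · rw [Bool.not_eq_true] at ht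
      rw [ht, cond_false] at h
      by_cases h96 : Nat.beq t 96 = true
      · rw [h96, cond_true, Bool.and_eq_true] at h
        rcases List.mem_cons.1 hb with rfl | hb
        · exact (dead_false (inv_filt hP hinv) h.1).elim
        · exact run_sound hP ts st h.2 b hb hinv
      · rw [Bool.not_eq_true] at h96
        rw [h96, cond_false, Bool.and_eq_true] at h
        rcases List.mem_cons.1 hb with rfl | hb
        · exact leaf_good (inv_filt hP hinv) h.1
        · exact run_sound hP ts st h.2 b hb hinv

theorem metrizable_theta333 : Metrizable theta333 := by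
  intro P hP
  exact run_sound hP toks [full] run_ok full List.mem_cons_self (inv_full P)

end Pool.Agent.L7h42.Theta
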