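import Pool.Agent.L7h42.Theta.Check

/-!
# Soundness of the check
-/

set_option autoImplicit false

namespace Pool.Agent.L7h42.Theta

open SimpleGraph

variable {V : Type}

/-! ### Walks -/

theorem split_pre {G : SimpleGraph V} : ∀ {u v : V} (p : G.Walk u v) (m l : List V), m ≠ [] →
    p.support = m ++ l → ∃ (y : V) (b : G.Walk u y) (c : G.Walk y v),
      p = b.append c ∧ b.support = m
  | _, _, .nil, m, l, hm, h => by
    cases m with
    | nil => exact absurd rfl hm
    | cons a m =>
      simp only [Walk.support_nil, List.cons_append, List.cons.injEq] at h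
      obtain ⟨rfl, h2⟩ := h
      have : m = [] := by
        cases m with
        | nil => rfl
        | cons _ _ => simp at h2
      subst this
      exact ⟨_, .nil, .nil, rfl, rfl⟩
  | _, _, .cons (v := x) h p, m, l, hm, hs => by
    cases m with
    | nil => exact absurd rfl hm
    | cons a m =>
      simp only [Walk.support_cons, List.cons_append, List.cons.injEq] at hs
      obtain ⟨rfl, h2⟩ := hs
      by_cases hm' : m = []
      · subst hm'
        exact ⟨_, .nil, .cons h p, rfl, rfl⟩
      · obtain ⟨y, b, c, h3, h4⟩ := split_pre p m l hm' h2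
        exact ⟨y, .cons h b, c, by rw [h3]; rfl, by simp [h4]⟩

theorem split_suf {G : SimpleGraph V} : ∀ {u v : V} (p : G.Walk u v) (l m : List V), m ≠ [] →
    p.support = l ++ m → ∃ (x : V) (a : G.Walk u x) (b : G.Walk x v),
      p = a.append b ∧ b.support = m
  | _, _, p, [], m, hm, h => ⟨_, .nil, p, rfl, h⟩
  | _, _, .nil, a :: l, m, hm, h => by
    simp only [Walk.support_nil, List.cons_append, List.cons.injEq] at h
    have h2 := h.2
    cases l with
    | nil => simp at h2; exact absurd h2 hm
    | cons _ _ => simp at h2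
  | _, _, .cons (v := x) h p, a :: l, m, hm, hs => by
    simp only [Walk.support_cons, List.cons_append, List.cons.injEq] at hs
    obtain ⟨x, a', b, h3, h4⟩ := split_suf p l m hm hs.2
    exact ⟨x, .cons h a', b, by rw [h3]; rfl, h4⟩

/-- The parts of the paths of a consistent path system. -/
theorem part {G : SimpleGraph V} {P : PathSystem G} (hP : Consistent P) {u v : V}
    (l m r : List V) (hm : m ≠ []) (h : (P.path u v).support = l ++ m ++ r) :
    ∃ x y : V, (P.path x y).support = m := by
  rw [List.append_assoc] at h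
  obtain ⟨x, a, b, h1, h2⟩ := split_suf (P.path u v) l (m ++ r) (by simp [hm]) h
  obtain ⟨y, b', c, h3, h4⟩ := split_pre b m r hm h2
  refine ⟨x, y, ?_⟩
  rw [hP u v x y a b' c (by rw [h1, h3]), h4]

theorem support_ne {G : SimpleGraph V} {u v : V} (p : G.Walk u v) : p.support ≠ [] := by
  cases p <;> simp

theorem head_support' {G : SimpleGraph V} {u v : V} (p : G.Walk u v) :
    p.support.head? = some u := by
  cases p <;> simp

theorem last_support' {G : SimpleGraph V} {u v : V} (p : G.Walk u v) :
    p.support.getLast? = some v := by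
  rw [List.getLast?_eq_some_getLast (support_ne p), Walk.getLast_support]

/-! ### Lists of numbers -/

def isPre : List ℕ → List ℕ → Bool
  | [], _ => true
  | _ :: _, [] => false
  | a :: l, b :: m => Nat.beq a b && isPre l m

def isInf (l : List ℕ) : List ℕ → Bool
  | [] => isPre l []
  | a :: m => isPre l (a :: m) || isInf l m

theorem isPre_iff : ∀ {l m : List ℕ}, isPre l m = true → ∃ r, m = l ++ r
  | [], m, _ => ⟨m, rfl⟩
  | _ :: _, [], h => by simp [isPre] at h
  | a :: l, b :: m, h => by
    simp only [isPre, Bool.and_eq_true] at h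
    obtain ⟨r, hr⟩ := isPre_iff h.2
    have := Nat.eq_of_beq_eq_true h.1
    exact ⟨r, by rw [hr, this]; rfl⟩

theorem isInf_iff : ∀ {l m : List ℕ}, isInf l m = true → ∃ r s, m = r ++ l ++ s
  | l, [], h => by
    obtain ⟨r, hr⟩ := isPre_iff (l := l) (m := []) (by simpa [isInf] using h)
    exact ⟨[], r, by simpa using hr⟩
  | l, a :: m, h => by
    simp only [isInf, Bool.or_eq_true] at h
    rcases h with h | h
    · obtain ⟨r, hr⟩ := isPre_iff h
      exact ⟨[], r, by simpa using hr⟩
    · obtain ⟨r, s, hr⟩ := isInf_iff h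
      exact ⟨a :: r, s, by rw [hr]; rfl⟩

/-! ### The table is complete -/

def nbr (a : ℕ) : List ℕ :=
  [[2, 4, 6], [3, 5, 7], [0, 3], [2, 1], [0, 5], [4, 1], [0, 7], [6, 1]].getD a []

def step (L : List (List ℕ)) : List (List ℕ) :=
  L.flatMap fun l => match l with
    | [] => []
    | a :: t => ((nbr a).filter fun b => !((a :: t).contains b)).map fun b => b :: a :: t

def gen : ℕ → List (List ℕ)
  | 0 => (List.range 8).map fun a => [a]
  | k + 1 => step (gen k)

theorem adj_nbr : ∀ a b : Fin 8, theta333.Adj a b → (a : ℕ) ∈ nbr b := by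
  have : ∀ a b : Fin 8, s(a, b) ∈ ({s(0, 2), s(2, 3), s(3, 1), s(0, 4), s(4, 5), s(5, 1),
      s(0, 6), s(6, 7), s(7, 1)} : Finset (Sym2 (Fin 8))) → (a : ℕ) ∈ nbr b := by decide
  intro a b h
  apply this
  unfold theta333 at h
  rw [SimpleGraph.fromEdgeSet_adj] at h
  have h1 := h.1
  simpa using h1

theorem mem_gen : ∀ (k : ℕ) (l : List (Fin 8)), l.length = k + 1 → l.IsChain theta333.Adj →
    l.Nodup → l.map Fin.val ∈ gen k
  | 0, l, hl, _, _ => by
    obtain ⟨a, rfl⟩ := List.length_eq_one_iff.1 (by simpa using hl)
    have := a.2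
    simp [gen]
  | k + 1, l, hl, hc, hn => by
    match l, hl, hc, hn with
    | b :: a :: t, hl, hc, hn =>
      rw [List.isChain_cons_cons] at hc
      have ih := mem_gen k (a :: t) (by simpa using hl) hc.2 (List.nodup_cons.1 hn).2
      have h1 := adj_nbr b a hc.1
      have h2 := (List.nodup_cons.1 hn).1
      simp only [gen, step, List.mem_flatMap]
      refine ⟨_, ih, ?_⟩
      simp only [List.map_cons, List.mem_map, List.mem_filter]
      refine ⟨b, ⟨h1, ?_⟩, rfl⟩
      rw [Bool.not_eq_true', ← Bool.not_eq_true, List.contains_iff_mem]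
      intro h3
      apply h2
      rw [← List.map_cons, List.mem_map] at h3
      obtain ⟨x, hx, hx2⟩ := h3
      rwa [← Fin.ext hx2]

def cd (q : ℕ) : List ℕ := cands.getD q []

/-- the support of a walk as a list of numbers -/
def sup {u v : Fin 8} (p : theta333.Walk u v) : List ℕ := p.support.map Fin.val

theorem sup_head {u v : Fin 8} (p : theta333.Walk u v) : (sup p).head? = some (u : ℕ) := by
  rw [sup, List.head?_map, head_support']
  rfl

theorem sup_last {u v : Fin 8} (p : theta333.Walk u v) : (sup p).getLast? = some (v : ℕ) := by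
  simp only [sup, List.getLast?_map, last_support', Option.map_some]

theorem gen_cands : (List.range 8).all (fun k => (gen k).all fun l =>
    (l.head?.getD 0 ≥ l.getLast?.getD 0) ||
      (List.range 96).any fun q => cd q == l) = true := by decide +kernel

theorem exists_cd {u v : Fin 8} (huv : u < v) (p : theta333.Walk u v) (hp : p.IsPath) :
    ∃ q < 96, cd q = sup p := by
  have h1 := hp.support_nodup
  have h2 : p.support.length = p.length + 1 := Walk.length_support p
  have h3 : p.length < 8 := by
    have := h1.length_le_card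
    simp at this
    omega
  have h4 := mem_gen p.length p.support h2 p.isChain_adj_support h1
  have h5 := gen_cands
  rw [List.all_eq_true] at h5
  have h6 := h5 p.length (by simpa using h3)
  rw [List.all_eq_true] at h6
  have h7 := h6 _ h4
  have e1 : (p.support.map Fin.val).head? = some (u : ℕ) := sup_head p
  have e2 : (p.support.map Fin.val).getLast? = some (v : ℕ) := sup_last p
  rw [e1, e2] at h7
  simp only [Option.getD_some, Bool.or_eq_true, decide_eq_true_eq] at h7
  rcases h7 with h7 | h7
  · exact absurd huv (by simpa using h7)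
  · rw [List.any_eq_true] at h7
    obtain ⟨q, hq, hq2⟩ := h7
    exact ⟨q, by simpa using hq, by simpa [sup] using hq2⟩

/-! ### Chosen paths -/

/-- path `q` of the table belongs to the path system -/
def Chosen (P : PathSystem theta333) (q : ℕ) : Prop := ∃ u v : Fin 8, sup (P.path u v) = cd q

def fm (q : ℕ) : ℕ := Fm.getD q 0
def cm (q : ℕ) : ℕ := Cm.getD q 0

theorem tab1 : (List.range 96).all (fun q => (List.range 96).all fun f =>
    !((fm q).testBit f) || (!(cd f).isEmpty && (isInf (cd f) (cd q) || isInf (cd f).reverse (cd q))))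
      = true := by
  decide +kernel

theorem fm_lt : (List.range 96).all (fun q => Nat.ble (fm q) full) = true := by decide +kernel

theorem chosen_part {P : PathSystem theta333} (hP : Consistent P) {q f : ℕ} (hq : q < 96)
    (h : Chosen P q) (hf : (fm q).testBit f = true) : Chosen P f := by
  have hf96 : f < 96 := by
    by_contra hcon
    have h1 := fm_lt
    rw [List.all_eq_true] at h1
    have h2 := Nat.le_of_ble_eq_true (h1 q (by simpa using hq))
    have h3 : fm q < 2 ^ f := by
      have h4 : full < 2 ^ 96 := by decide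
      have h5 : 2 ^ 96 ≤ 2 ^ f := Nat.pow_le_pow_right (by norm_num) (by omega)
      omega
    rw [Nat.testBit_lt_two_pow h3] at hf
    exact absurd hf (by decide)
  have h1 := tab1
  rw [List.all_eq_true] at h1
  have h2 := h1 q (by simpa using hq)
  rw [List.all_eq_true] at h2
  have h3 := h2 f (by simpa using hf96)
  rw [hf] at h3
  simp only [Bool.not_true, Bool.false_or, Bool.and_eq_true, Bool.or_eq_true] at h3
  obtain ⟨u, v, huv⟩ := h
  have hne : cd f ≠ [] := by
    intro h; rw [h] at h3; simp at h3
  rcases h3.2 with h4 | h4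
  · obtain ⟨r, s, hrs⟩ := isInf_iff h4
    rw [← huv] at hrs
    unfold sup at hrs
    rw [List.map_eq_append_iff] at hrs
    obtain ⟨l1, l2, hl, hl1, hl2⟩ := hrs
    rw [List.map_eq_append_iff] at hl1
    obtain ⟨l3, l4, hl3, hl4, hl5⟩ := hl1
    obtain ⟨x, y, hxy⟩ := part hP l3 l4 l2 (by rintro rfl; exact hne (by simpa using hl5.symm))
      (by rw [hl, hl3])
    exact ⟨x, y, by rw [sup, hxy, hl5]⟩
  · obtain ⟨r, s, hrs⟩ := isInf_iff h4
    rw [← huv] at hrs
    unfold sup at hrs
    rw [List.map_eq_append_iff] at hrs
    obtain ⟨l1, l2, hl, hl1, hl2⟩ := hrs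
    rw [List.map_eq_append_iff] at hl1
    obtain ⟨l3, l4, hl3, hl4, hl5⟩ := hl1
    obtain ⟨x, y, hxy⟩ := part hP l3 l4 l2 (by
      rintro rfl
      apply hne
      have := hl5.symm
      simpa using this)
      (by rw [hl, hl3])
    refine ⟨y, x, ?_⟩
    rw [P.symm x y, sup, Walk.support_reverse, hxy, List.map_reverse, hl5, List.reverse_reverse]

theorem tab2 : (List.range 96).all (fun q => (List.range 96).all fun i =>
    ((cm q).testBit i) || (List.range 96).any fun f => (fm q).testBit f &&
      ((cd f).head? == (cd i).head? && (cd f).getLast? == (cd i).getLast? && !(cd f == cd i)))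
      = true := by
  decide +kernel

theorem chosen_compat {P : PathSystem theta333} (hP : Consistent P) {q i : ℕ} (hq : q < 96)
    (hi : i < 96) (h : Chosen P q) (h' : Chosen P i) : (cm q).testBit i = true := by
  have h1 := tab2
  rw [List.all_eq_true] at h1
  have h2 := h1 q (by simpa using hq)
  rw [List.all_eq_true] at h2
  have h3 := h2 i (by simpa using hi)
  rw [Bool.or_eq_true] at h3
  rcases h3 with h3 | h3
  · exact h3
  · rw [List.any_eq_true] at h3
    obtain ⟨f, hf, hf2⟩ := h3
    simp only [Bool.and_eq_true, beq_iff_eq, Bool.not_eq_true', beq_eq_false_iff_ne] at hf2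
    obtain ⟨hf3, ⟨hf4, hf5⟩, hf6⟩ := hf2
    obtain ⟨x, y, hxy⟩ := chosen_part hP hq h hf3
    obtain ⟨x', y', hxy'⟩ := h'
    rw [← hxy, ← hxy', sup_head, sup_head] at hf4
    rw [← hxy, ← hxy', sup_last, sup_last] at hf5
    simp only [Option.some.injEq] at hf4 hf5
    have e1 := Fin.ext hf4
    have e2 := Fin.ext hf5
    subst e1 e2
    exact absurd (hxy.symm.trans hxy') hf6

end Pool.Agent.L7h42.Theta
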